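import Pool.Agent.Y245.UC.Stm

/-!
# Project UC (helper245): relation on the circle, reflection (helper500)
-/

set_option autoImplicit false

open Complex MeasureTheory Metric Set Filter Topology ComplexConjugate

namespace Pool.Agent.Y500.UC

open Pool.Agent.Y245.UC

/-- the reflection -/
noncomputable def rho (v : ℂ) : ℂ := 1 / conj v

theorem rho_cont {v : ℂ} (hv : v ≠ 0) : ContinuousAt rho v := by
  unfold rho
  refine ContinuousAt.div continuousAt_const continuous_conj.continuousAt ?_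
  rwa [ne_eq, _root_.map_eq_zero]

theorem rho_ne {v : ℂ} (hv : v ≠ 0) : rho v ≠ 0 := by
  unfold rho
  refine div_ne_zero one_ne_zero ?_
  rwa [ne_eq, _root_.map_eq_zero]

theorem rho_rho (v : ℂ) : rho (rho v) = v := by
  unfold rho
  rw [map_div₀, conj_conj, map_one, one_div_one_div]

theorem norm_rho (v : ℂ) : ‖rho v‖ = 1 / ‖v‖ := by
  unfold rho
  rw [norm_div, norm_one, norm_conj]

theorem rho_circle {w : ℂ} (hw : ‖w‖ = 1) : rho w = w := by
  unfold rho
  have h0 : conj w ≠ 0 := by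
    rw [ne_eq, _root_.map_eq_zero, ← norm_eq_zero, hw]
    exact one_ne_zero
  rw [div_eq_iff h0, mul_conj, normSq_eq_norm_sq, hw]
  norm_num

theorem Rf_eq (f : ℂ → ℂ) (u : ℂ) : Rf f u = conj (f (rho u)) := rfl

theorem Rf_diff {f : ℂ → ℂ} {v : ℂ} (hv : v ≠ 0) (hf : DifferentiableAt ℂ f (rho v)) :
    DifferentiableAt ℂ (Rf f) v := by
  have h1 : rho v = conj (v⁻¹) := by
    unfold rho
    rw [one_div, map_inv₀]
  rw [h1] at hf
  have h2 : DifferentiableAt ℂ (conj ∘ f ∘ conj) (v⁻¹) := by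
    have h4 := DifferentiableAt.conj_conj hf
    rwa [conj_conj] at h4
  have h3 : Rf f = (conj ∘ f ∘ conj) ∘ fun v => v⁻¹ := by
    funext v
    show conj (f (1 / conj v)) = conj (f (conj (v⁻¹)))
    rw [one_div, map_inv₀]
  rw [h3]
  exact h2.comp v (differentiableAt_inv hv)

theorem annulus {r : ℝ} (hr : 1 < r) : IsPreconnected {v : ℂ | r⁻¹ < ‖v‖ ∧ ‖v‖ < r} := by
  have hr0 : 0 < r := by linarith
  have h1 : {v : ℂ | r⁻¹ < ‖v‖ ∧ ‖v‖ < r} =
      exp '' {z : ℂ | -Real.log r < z.re ∧ z.re < Real.log r} := by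
    ext v
    simp only [mem_ofPred_eq, mem_image]
    constructor
    · rintro ⟨h2, h3⟩
      have hv : 0 < ‖v‖ := lt_trans (by positivity) h2
      refine ⟨log v, ⟨?_, ?_⟩, exp_log (norm_pos_iff.1 hv)⟩
      · rw [log_re, ← Real.log_inv]
        exact Real.log_lt_log (by positivity) h2
      · rw [log_re]
        exact Real.log_lt_log hv h3
    · rintro ⟨z, ⟨h2, h3⟩, rfl⟩
      rw [norm_exp]
      constructor
      · rw [← Real.exp_log (show 0 < r⁻¹ by positivity), Real.log_inv]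
        exact Real.exp_lt_exp.2 h2
      · exact (Real.lt_log_iff_exp_lt hr0).1 h3
  rw [h1]
  refine IsPreconnected.image ?_ _ continuous_exp.continuousOn
  apply Convex.isPreconnected
  exact (convex_halfSpace_re_gt _).inter (convex_halfSpace_re_lt _)

/-- **REL.** -/
theorem urel : U_REL := by
  intro φ r u g0 xs ct hr hφ hu1 hu2 hev w hw
  have hr0 : 0 < r := by linarith
  have hri : r⁻¹ < 1 := inv_lt_one_of_one_lt₀ hr
  have hA : IsOpen {v : ℂ | r⁻¹ < ‖v‖ ∧ ‖v‖ < r} :=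
    (isOpen_lt continuous_const continuous_norm).inter (isOpen_lt continuous_norm continuous_const)
  have hdiff : DifferentiableOn ℂ (fun v => (Rf φ v - g0) * (φ v - xs))
      {v : ℂ | r⁻¹ < ‖v‖ ∧ ‖v‖ < r} := by
    rintro v ⟨hv1, hv2⟩
    have hv0 : 0 < ‖v‖ := lt_trans (by positivity) hv1
    have h1 : DifferentiableAt ℂ φ v :=
      hφ.differentiableAt (isOpen_ball.mem_nhds (by rwa [mem_ball_zero_iff]))
    have h2 : DifferentiableAt ℂ φ (rho v) := by
      refine hφ.differentiableAt (isOpen_ball.mem_nhds ?_)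
      rw [mem_ball_zero_iff, norm_rho, div_lt_iff₀ hv0]
      rw [inv_lt_iff_one_lt_mul₀ hr0] at hv1
      rwa [mul_comm]
    exact (((Rf_diff (norm_pos_iff.1 hv0) h2).sub_const g0).mul (h1.sub_const xs)).differentiableWithinAt
  have h1 := (hdiff.analyticOnNhd hA).eqOn_of_preconnected_of_eventuallyEq
    (analyticOnNhd_const (v := ct)) (annulus hr) (z₀ := u) ⟨hu1, hu2.trans hr⟩ hev
  have hw1 : ‖w‖ = 1 := mem_sphere_zero_iff_norm.1 hw
  have h2 := h1 (show w ∈ {v : ℂ | r⁻¹ < ‖v‖ ∧ ‖v‖ < r} from ⟨by rw [hw1]; exact hri, by rw [hw1]; exact hr⟩)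
  simp only at h2
  rw [Rf_eq, rho_circle hw1] at h2
  exact h2

/-- **REFL.** -/
theorem urefl : U_REFL := by
  refine ⟨?_, ?_, ?_, ?_, ?_⟩
  · intro B f hB hB1 hf
    refine ⟨?_, ?_, ?_, ?_⟩
    · have h1 : ContinuousOn rho {v : ℂ | v ≠ 0} := fun v hv => (rho_cont hv).continuousWithinAt
      exact h1.isOpen_inter_preimage isOpen_ne hB
    · rintro v ⟨hv0, hv⟩
      have h1 : 1 < ‖rho v‖ := hB1 _ hv
      have h2 : 0 < ‖v‖ := norm_pos_iff.2 hv0
      rw [norm_rho, lt_div_iff₀ h2, one_mul] at h1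
      rwa [mem_ball_zero_iff]
    · intro hpre
      have h1 : {v : ℂ | v ≠ 0 ∧ 1 / conj v ∈ B} = rho '' B := by
        ext v
        constructor
        · rintro ⟨hv0, hv⟩
          exact ⟨rho v, hv, rho_rho v⟩
        · rintro ⟨w, hw, rfl⟩
          have hw0 : w ≠ 0 := by
            rintro rfl
            have := hB1 0 hw
            rw [norm_zero] at this
            linarith
          refine ⟨rho_ne hw0, ?_⟩
          show rho (rho w) ∈ B
          rwa [rho_rho]
      rw [h1]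
      refine hpre.image _ fun w hw => ?_
      have hw0 : w ≠ 0 := by
        rintro rfl
        have := hB1 0 hw
        rw [norm_zero] at this
        linarith
      exact (rho_cont hw0).continuousWithinAt
    · rintro v ⟨hv0, hv⟩
      exact (Rf_diff hv0 (hf.differentiableAt (hB.mem_nhds hv))).differentiableWithinAt
  · intro f g z hz hfg
    have h1 : Tendsto rho (𝓝 (1 / conj z)) (𝓝 z) := by
      have h2 := (rho_cont (rho_ne hz)).tendsto
      rw [rho_rho] at h2
      exact h2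
    filter_upwards [h1.eventually hfg] with v hv
    rw [Rf_eq, Rf_eq, hv]
  · intro f z _
    rw [Rf_eq, Rf_eq, conj_conj, rho_rho]
  · intro w1 hw1 ε hε
    have hw0 : w1 ≠ 0 := by
      rintro rfl
      rw [norm_zero] at hw1
      linarith
    have hr0 : rho w1 ≠ 0 := rho_ne hw0
    have h1 : ∀ᶠ v in 𝓝 (rho w1), v ∈ ball (0 : ℂ) 1 ∧ v ≠ 0 ∧ rho v ∈ ball w1 ε := by
      have a1 : ∀ᶠ v in 𝓝 (rho w1), v ∈ ball (0 : ℂ) 1 := by
        refine isOpen_ball.mem_nhds ?_
        rw [mem_ball_zero_iff, norm_rho, div_lt_one (by linarith)]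
        exact hw1
      have a2 : ∀ᶠ v in 𝓝 (rho w1), v ≠ 0 := isOpen_ne.mem_nhds hr0
      have a3 : ∀ᶠ v in 𝓝 (rho w1), rho v ∈ ball w1 ε := by
        have h2 := (rho_cont hr0).tendsto
        rw [rho_rho] at h2
        exact h2.eventually (ball_mem_nhds w1 hε)
      exact a1.and (a2.and a3)
    obtain ⟨ρ, hρ, h2⟩ := Metric.eventually_nhds_iff_ball.1 h1
    exact ⟨ρ, hρ, fun v hv => (h2 v hv).1, fun v hv => (h2 v hv).2⟩
  · intro w1 hw1 ρ hρ
    have hw0 : w1 ≠ 0 := by
      rintro rfl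
      rw [norm_zero] at hw1
      linarith
    have h1 : ∀ᶠ w in 𝓝 w1, w ≠ 0 ∧ rho w ∈ ball (rho w1) ρ := by
      have a1 : ∀ᶠ w in 𝓝 w1, w ≠ 0 := isOpen_ne.mem_nhds hw0
      exact a1.and ((rho_cont hw0).tendsto.eventually (ball_mem_nhds _ hρ))
    obtain ⟨δ, hδ, h2⟩ := Metric.eventually_nhds_iff_ball.1 h1
    exact ⟨δ, hδ, fun w hw => h2 w hw⟩

end Pool.Agent.Y500.UC
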